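import Pool.Agent.J4H16.DV.Stm

/-!
# Project DV, pieces GRX and GRY: Green's formula for polynomials along closed curves
-/

set_option autoImplicit false

open Set MeasureTheory Topology Filter
open scoped ENNReal NNReal

namespace Pool.Agent.J4H46.DV

open Pool.Agent.TH525.AG
open Pool.Agent.J4H16.DV

lemma cone_cont (F : MvPolynomial (Fin 2) ℝ) : Continuous (cone F) := by
  unfold cone
  refine intervalIntegral.continuous_parametric_intervalIntegral_of_continuous' (μ := volume)
    (f := fun (p : ℝ × ℝ) (τ : ℝ) => τ * ev F (τ * p.1, τ * p.2)) ?_ 0 1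
  have h : Continuous (fun q : (ℝ × ℝ) × ℝ => (q.2 * q.1.1, q.2 * q.1.2)) := by fun_prop
  exact continuous_snd.mul ((ev_cont F).comp h)

lemma ev_add (F G : MvPolynomial (Fin 2) ℝ) (p : ℝ × ℝ) : ev (F + G) p = ev F p + ev G p := by
  unfold ev
  rw [map_add]

lemma cone_add (F G : MvPolynomial (Fin 2) ℝ) (p : ℝ × ℝ) : cone (F + G) p = cone F p + cone G p := by
  unfold cone
  have h : ∀ H : MvPolynomial (Fin 2) ℝ, IntervalIntegrable (fun τ : ℝ => τ * ev H (τ * p.1, τ * p.2)) volume 0 1 := by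
    intro H
    have h1 : Continuous (fun τ : ℝ => (τ * p.1, τ * p.2)) := by fun_prop
    exact (continuous_id.mul ((ev_cont H).comp h1)).intervalIntegrable _ _
  rw [← intervalIntegral.integral_add (h F) (h G)]
  refine intervalIntegral.integral_congr fun τ _ => ?_
  show τ * ev (F + G) (τ * p.1, τ * p.2) = τ * ev F (τ * p.1, τ * p.2) + τ * ev G (τ * p.1, τ * p.2)
  rw [ev_add]
  ring

lemma ev_mono (s : Fin 2 →₀ ℕ) (a : ℝ) (p : ℝ × ℝ) :
    ev (MvPolynomial.monomial s a) p = a * (p.1 ^ (s 0) * p.2 ^ (s 1)) := by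
  unfold ev
  rw [MvPolynomial.eval_monomial, Finsupp.prod_fintype _ _ (fun i => pow_zero _), Fin.prod_univ_two]
  simp

lemma cone_mono (i j : ℕ) (s : Fin 2 →₀ ℕ) (a : ℝ) (h0 : s 0 = i) (h1 : s 1 = j) (p : ℝ × ℝ) :
    cone (MvPolynomial.monomial s a) p = a * (p.1 ^ i * p.2 ^ j) / (i + j + 2) := by
  unfold cone
  have e : ∀ τ : ℝ, τ * ev (MvPolynomial.monomial s a) (τ * p.1, τ * p.2) = (a * (p.1 ^ i * p.2 ^ j)) * τ ^ (i + j + 1) := by
    intro τ
    rw [ev_mono, h0, h1]
    simp only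
    rw [mul_pow, mul_pow, pow_succ, pow_add]
    ring
  simp only [e]
  rw [intervalIntegral.integral_const_mul, integral_pow]
  rw [one_pow, zero_pow (Nat.succ_ne_zero _), sub_zero, mul_one_div]
  congr 1
  push_cast
  ring

lemma cone_zero (p : ℝ × ℝ) : cone 0 p = 0 := by
  unfold cone ev
  simp

lemma cone_d0 (s : Fin 2 →₀ ℕ) (a : ℝ) (p : ℝ × ℝ) :
    cone (MvPolynomial.pderiv 0 (MvPolynomial.monomial s a)) p =
      a * s 0 * (p.1 ^ (s 0 - 1) * p.2 ^ (s 1)) / (s 0 + s 1 + 1) := by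
  rw [MvPolynomial.pderiv_monomial]
  rcases Nat.eq_zero_or_pos (s 0) with h | h
  · rw [h]
    simp [cone_zero]
  · rw [cone_mono (s 0 - 1) (s 1) _ _ (by simp) (by simp)]
    have e : ((s 0 - 1 : ℕ) : ℝ) = (s 0 : ℝ) - 1 := by
      rw [Nat.cast_sub h]; simp
    rw [e]
    congr 1
    ring

lemma cone_d1 (s : Fin 2 →₀ ℕ) (a : ℝ) (p : ℝ × ℝ) :
    cone (MvPolynomial.pderiv 1 (MvPolynomial.monomial s a)) p =
      a * s 1 * (p.1 ^ (s 0) * p.2 ^ (s 1 - 1)) / (s 0 + s 1 + 1) := by
  rw [MvPolynomial.pderiv_monomial]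
  rcases Nat.eq_zero_or_pos (s 1) with h | h
  · rw [h]
    simp [cone_zero]
  · rw [cone_mono (s 0) (s 1 - 1) _ _ (by simp) (by simp)]
    have e : ((s 1 - 1 : ℕ) : ℝ) = (s 1 : ℝ) - 1 := by
      rw [Nat.cast_sub h]; simp
    rw [e]
    congr 1
    ring

lemma exact_int (T : ℝ) (x y x' y' : ℝ → ℝ) (hT : 0 < T)
    (hx : ContinuousOn x (Icc 0 T)) (hy : ContinuousOn y (Icc 0 T)) (hx' : ContinuousOn x' (Icc 0 T))
    (hy' : ContinuousOn y' (Icc 0 T)) (dx : ∀ t ∈ Ioo 0 T, HasDerivAt x (x' t) t)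
    (dy : ∀ t ∈ Ioo 0 T, HasDerivAt y (y' t) t) (ex : x 0 = x T) (ey : y 0 = y T) (i j : ℕ) :
    ∫ t in (0 : ℝ)..T, ((i : ℝ) * x t ^ (i - 1) * x' t * y t ^ j + x t ^ i * ((j : ℝ) * y t ^ (j - 1) * y' t)) = 0 := by
  rw [intervalIntegral.integral_eq_sub_of_hasDerivAt_of_le (f := fun t => x t ^ i * y t ^ j) hT.le]
  · rw [ex, ey, sub_self]
  · exact (hx.pow i).mul (hy.pow j)
  · intro t ht
    exact ((dx t ht).pow i).mul ((dy t ht).pow j)
  · apply ContinuousOn.intervalIntegrable_of_Icc hT.le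
    exact (((continuousOn_const.mul (hx.pow _)).mul hx').mul (hy.pow _)).add
      ((hx.pow _).mul ((continuousOn_const.mul (hy.pow _)).mul hy'))

theorem t_GRX : S_GRX := by
  intro F T x y x' y' hT hx hy hx' hy' dx dy ex ey
  have hxy : ContinuousOn (fun t => (x t, y t)) (Icc 0 T) := hx.prodMk hy
  have I1 : ∀ G : MvPolynomial (Fin 2) ℝ, IntervalIntegrable (fun t => ev G (x t, y t) * y' t) volume 0 T := fun G =>
    ContinuousOn.intervalIntegrable_of_Icc hT.le (((ev_cont G).comp_continuousOn hxy).mul hy')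
  have hw : ContinuousOn (fun t => x t * y' t - y t * x' t) (Icc 0 T) := (hx.mul hy').sub (hy.mul hx')
  have I2 : ∀ G : MvPolynomial (Fin 2) ℝ, IntervalIntegrable (fun t => cone G (x t, y t) * (x t * y' t - y t * x' t)) volume 0 T := fun G =>
    ContinuousOn.intervalIntegrable_of_Icc hT.le (((cone_cont G).comp_continuousOn hxy).mul hw)
  induction F using MvPolynomial.induction_on' with
  | monomial s a =>
    have h0 := exact_int T x y x' y' hT hx hy hx' hy' dx dy ex ey (s 0) (s 1 + 1)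
    rw [← sub_eq_zero, ← intervalIntegral.integral_sub (I1 _) (I2 _)]
    have h1 : ∫ t in (0 : ℝ)..T, (ev (MvPolynomial.monomial s a) (x t, y t) * y' t -
        cone (MvPolynomial.pderiv 0 (MvPolynomial.monomial s a)) (x t, y t) * (x t * y' t - y t * x' t)) =
        ∫ t in (0 : ℝ)..T, (a / (s 0 + s 1 + 1)) * (((s 0 : ℕ) : ℝ) * x t ^ (s 0 - 1) * x' t * y t ^ (s 1 + 1) +
          x t ^ (s 0) * (((s 1 + 1 : ℕ) : ℝ) * y t ^ (s 1 + 1 - 1) * y' t)) := by
      refine intervalIntegral.integral_congr fun t _ => ?_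
      show ev (MvPolynomial.monomial s a) (x t, y t) * y' t -
        cone (MvPolynomial.pderiv 0 (MvPolynomial.monomial s a)) (x t, y t) * (x t * y' t - y t * x' t) = _
      rw [ev_mono, cone_d0]
      have hne : ((s 0 : ℝ) + s 1 + 1) ≠ 0 := by positivity
      simp only [Nat.add_sub_cancel]
      push_cast
      rcases Nat.eq_zero_or_pos (s 0) with h | h
      · rw [h] at hne ⊢
        simp only [Nat.cast_zero, zero_add, pow_zero] at hne ⊢
        field_simp
        ring
      · obtain ⟨k, hk⟩ : ∃ k, s 0 = k + 1 := ⟨s 0 - 1, by omega⟩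
        rw [hk] at hne ⊢
        simp only [Nat.add_sub_cancel]
        push_cast at hne ⊢
        field_simp
        ring
    rw [h1, intervalIntegral.integral_const_mul, h0, mul_zero]
  | add p q hp hq =>
    have e1 : ∫ t in (0 : ℝ)..T, ev (p + q) (x t, y t) * y' t = (∫ t in (0 : ℝ)..T, ev p (x t, y t) * y' t) + ∫ t in (0 : ℝ)..T, ev q (x t, y t) * y' t := by
      rw [← intervalIntegral.integral_add (I1 p) (I1 q)]
      refine intervalIntegral.integral_congr fun t _ => ?_
      show ev (p + q) (x t, y t) * y' t = ev p (x t, y t) * y' t + ev q (x t, y t) * y' t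
      rw [ev_add]
      ring
    rw [e1, hp, hq, ← intervalIntegral.integral_add (I2 _) (I2 _)]
    refine intervalIntegral.integral_congr fun t _ => ?_
    show cone (MvPolynomial.pderiv 0 p) (x t, y t) * (x t * y' t - y t * x' t) +
      cone (MvPolynomial.pderiv 0 q) (x t, y t) * (x t * y' t - y t * x' t) =
      cone (MvPolynomial.pderiv 0 (p + q)) (x t, y t) * (x t * y' t - y t * x' t)
    rw [map_add, cone_add]
    ring

theorem t_GRY : S_GRY := by
  intro F T x y x' y' hT hx hy hx' hy' dx dy ex ey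
  have hxy : ContinuousOn (fun t => (x t, y t)) (Icc 0 T) := hx.prodMk hy
  have I1 : ∀ G : MvPolynomial (Fin 2) ℝ, IntervalIntegrable (fun t => ev G (x t, y t) * x' t) volume 0 T := fun G =>
    ContinuousOn.intervalIntegrable_of_Icc hT.le (((ev_cont G).comp_continuousOn hxy).mul hx')
  have hw : ContinuousOn (fun t => x t * y' t - y t * x' t) (Icc 0 T) := (hx.mul hy').sub (hy.mul hx')
  have I2 : ∀ G : MvPolynomial (Fin 2) ℝ, IntervalIntegrable (fun t => cone G (x t, y t) * (x t * y' t - y t * x' t)) volume 0 T := fun G =>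
    ContinuousOn.intervalIntegrable_of_Icc hT.le (((cone_cont G).comp_continuousOn hxy).mul hw)
  induction F using MvPolynomial.induction_on' with
  | monomial s a =>
    have h0 := exact_int T x y x' y' hT hx hy hx' hy' dx dy ex ey (s 0 + 1) (s 1)
    have h1 : ∫ t in (0 : ℝ)..T, (ev (MvPolynomial.monomial s a) (x t, y t) * x' t +
        cone (MvPolynomial.pderiv 1 (MvPolynomial.monomial s a)) (x t, y t) * (x t * y' t - y t * x' t)) =
        ∫ t in (0 : ℝ)..T, (a / (s 0 + s 1 + 1)) * (((s 0 + 1 : ℕ) : ℝ) * x t ^ (s 0 + 1 - 1) * x' t * y t ^ (s 1) +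
          x t ^ (s 0 + 1) * (((s 1 : ℕ) : ℝ) * y t ^ (s 1 - 1) * y' t)) := by
      refine intervalIntegral.integral_congr fun t _ => ?_
      show ev (MvPolynomial.monomial s a) (x t, y t) * x' t +
        cone (MvPolynomial.pderiv 1 (MvPolynomial.monomial s a)) (x t, y t) * (x t * y' t - y t * x' t) = _
      rw [ev_mono, cone_d1]
      have hne : ((s 0 : ℝ) + s 1 + 1) ≠ 0 := by positivity
      simp only [Nat.add_sub_cancel]
      push_cast
      rcases Nat.eq_zero_or_pos (s 1) with h | h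
      · rw [h] at hne ⊢
        simp only [Nat.cast_zero, add_zero, pow_zero] at hne ⊢
        field_simp
        ring
      · obtain ⟨k, hk⟩ : ∃ k, s 1 = k + 1 := ⟨s 1 - 1, by omega⟩
        rw [hk] at hne ⊢
        simp only [Nat.add_sub_cancel]
        push_cast at hne ⊢
        field_simp
        ring
    rw [intervalIntegral.integral_const_mul, h0, mul_zero, intervalIntegral.integral_add (I1 _) (I2 _)] at h1
    linarith
  | add p q hp hq =>
    have e1 : ∫ t in (0 : ℝ)..T, ev (p + q) (x t, y t) * x' t = (∫ t in (0 : ℝ)..T, ev p (x t, y t) * x' t) + ∫ t in (0 : ℝ)..T, ev q (x t, y t) * x' t := by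
      rw [← intervalIntegral.integral_add (I1 p) (I1 q)]
      refine intervalIntegral.integral_congr fun t _ => ?_
      show ev (p + q) (x t, y t) * x' t = ev p (x t, y t) * x' t + ev q (x t, y t) * x' t
      rw [ev_add]
      ring
    rw [e1, neg_add, hp, hq, ← intervalIntegral.integral_add (I2 _) (I2 _)]
    refine intervalIntegral.integral_congr fun t _ => ?_
    show cone (MvPolynomial.pderiv 1 p) (x t, y t) * (x t * y' t - y t * x' t) +
      cone (MvPolynomial.pderiv 1 q) (x t, y t) * (x t * y' t - y t * x' t) =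
      cone (MvPolynomial.pderiv 1 (p + q)) (x t, y t) * (x t * y' t - y t * x' t)
    rw [map_add, cone_add]
    ring

end Pool.Agent.J4H46.DV
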